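import Pool.Agent.Helper84.AutC

/-! A complex number with countably many conjugates is algebraic. -/

namespace Pool.Agent.Helper7.AF

open Polynomial Cardinal

/-- Two transcendental numbers are conjugate by an automorphism of `ℂ` which fixes all algebraic
numbers. -/
theorem exists_aut_transcendental (c d : ℂ) (hc : ¬ IsAlgebraic ℚ c) (hd : ¬ IsAlgebraic ℚ d) :
    ∃ τ : ℂ ≃+* ℂ, (∀ x, IsAlgebraic ℚ x → τ x = x) ∧ τ c = d := by
  let K := algebraicClosure ℚ ℂ
  have hKalg : Algebra.IsAlgebraic ℚ K := algebraicClosure.isAlgebraic ℚ ℂ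
  have hinj : ∀ z : ℂ, ¬ IsAlgebraic ℚ z → Function.Injective (aeval z : K[X] →ₐ[K] ℂ) := by
    intro z hz
    rw [← transcendental_iff_injective]
    intro hz'
    exact hz (hz'.restrictScalars ℚ)
  have hcount : #K[X] ≤ ℵ₀ := by
    have : Countable K := by
      have h := Algebraic.countable ℚ ℂ
      have h2 : (K : Set ℂ).Countable := by
        refine h.mono ?_
        intro x hx
        exact (mem_algebraicClosure_iff).1 hx
      exact h2.to_subtype
    exact Polynomial.cardinalMk_le_max.trans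
      (max_le (Cardinal.mk_le_aleph0_iff.2 this) le_rfl)
  have hbig : ℵ₀ < #ℂ := by
    rw [Cardinal.mk_complex]
    exact Cardinal.aleph0_lt_continuum
  have key : ∀ z : ℂ, ¬ IsAlgebraic ℚ z →
      letI : Algebra K[X] ℂ := (aeval z : K[X] →ₐ[K] ℂ).toRingHom.toAlgebra
      ∃ v : ℂ → ℂ, IsTranscendenceBasis K[X] v := by
    intro z hz
    let _ : Algebra K[X] ℂ := (aeval z : K[X] →ₐ[K] ℂ).toRingHom.toAlgebra
    have hfs : FaithfulSMul K[X] ℂ := (faithfulSMul_iff_algebraMap_injective K[X] ℂ).2 (hinj z hz)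
    obtain ⟨s, hs⟩ := exists_isTranscendenceBasis K[X] ℂ
    have h1 := IsAlgClosed.cardinal_eq_cardinal_transcendence_basis_of_aleph0_lt _ hs hcount hbig
    obtain ⟨e'⟩ := Cardinal.eq.1 h1
    let e : ℂ ≃ s := Equiv.ulift.symm.trans (e'.trans Equiv.ulift)
    refine ⟨(fun x : s => (x : ℂ)) ∘ e, ?_⟩
    exact (isTranscendenceBasis_equiv e).2 hs
  obtain ⟨v, hv⟩ := key c hc
  obtain ⟨w, hw⟩ := key d hd
  obtain ⟨e, he⟩ := @Helper84.exists_ringEquiv_of_basis K[X] ℂ ℂ _ _ _ _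
    (aeval c : K[X] →ₐ[K] ℂ).toRingHom.toAlgebra (aeval d : K[X] →ₐ[K] ℂ).toRingHom.toAlgebra
    _ _ _ _ _ hv hw
  refine ⟨e, ?_, ?_⟩
  · intro x hx
    have h1 := he (C (⟨x, mem_algebraicClosure_iff.2 hx⟩ : K))
    change e (aeval c (C (⟨x, mem_algebraicClosure_iff.2 hx⟩ : K))) =
      aeval d (C (⟨x, mem_algebraicClosure_iff.2 hx⟩ : K)) at h1
    rw [aeval_C, aeval_C] at h1
    exact h1
  · have h1 := he X
    change e (aeval c (X : K[X])) = aeval d (X : K[X]) at h1
    rw [aeval_X, aeval_X] at h1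
    exact h1

theorem alg_of_countable (c : ℂ) (S : Set ℂ) (hS : S.Countable)
    (h : ∀ τ : ℂ ≃+* ℂ, (∀ x, IsAlgebraic ℚ x → τ x = x) → τ c ∈ S) : IsAlgebraic ℚ c := by
  by_contra hc
  have h1 : (Set.univ : Set ℂ) ⊆ {x : ℂ | IsAlgebraic ℚ x} ∪ S := by
    intro d _
    by_cases hd : IsAlgebraic ℚ d
    · exact Or.inl hd
    · right
      obtain ⟨τ, h2, h3⟩ := exists_aut_transcendental c d hc hd
      rw [← h3]
      exact h τ h2
  have h2 : (Set.univ : Set ℂ).Countable := ((Algebraic.countable ℚ ℂ).union hS).mono h1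
  exact not_countable_complex h2

end Pool.Agent.Helper7.AF
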